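import Pool.Agent.X10.Mult2

/-!
# The normalized collision counts `a(n)` and `b(n)` tend to infinity

`a(n) = C(n) / (n² log n)` and `b(n) = D(n) / (n^(3/2) √(log n))` tend to infinity, even after
division by an arbitrary power of `n`.  See `Pool.Agent.X10.Mult2` for the idea.
-/

set_option autoImplicit false

open Filter

namespace Pool.Agent.Results.MP_dccd56_co.NormalizedDiverge

open Pool.Agent.X10.Mult

/-- `a(n) = C(n) / (n² log n)` -/
noncomputable def a (n : ℕ) : ℝ := (C n : ℝ) / ((n : ℝ) ^ 2 * Real.log n)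

/-- `b(n) = D(n) / (n^(3/2) √(log n))` -/
noncomputable def b (n : ℕ) : ℝ := (D n : ℝ) / ((n : ℝ) ^ (3 / 2 : ℝ) * √(Real.log n))

lemma log_le (n : ℕ) (hn : 2 ≤ n) : 0 < Real.log n ∧ Real.log n ≤ n := by
  have h1 : (2 : ℝ) ≤ n := by exact_mod_cast hn
  exact ⟨Real.log_pos (by linarith),
    (Real.log_le_sub_one_of_pos (by linarith)).trans (by linarith)⟩

lemma tendsto_of {f : ℕ → ℕ} {g : ℕ → ℝ} (hf : ∀ K : ℕ, ∃ N : ℕ, ∀ n ≥ N, n ^ K ≤ f n)
    (hg : ∀ᶠ n : ℕ in atTop, 0 < g n ∧ g n ≤ (n : ℝ) ^ 3) (K : ℕ) :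
    Tendsto (fun n : ℕ => (f n : ℝ) / g n / (n : ℝ) ^ K) atTop atTop := by
  obtain ⟨N, hN⟩ := hf (K + 4)
  refine tendsto_atTop_mono' atTop ?_ tendsto_natCast_atTop_atTop
  filter_upwards [hg, eventually_ge_atTop (N + 1)] with n h1 h2
  have hn0 : (0 : ℝ) < n := by exact_mod_cast (by omega : 0 < n)
  have h4 : ((n : ℝ)) ^ (K + 4) ≤ (f n : ℝ) := by exact_mod_cast hN n (by omega)
  rw [div_div, le_div_iff₀ (mul_pos h1.1 (by positivity))]
  calc (n : ℝ) * (g n * (n : ℝ) ^ K) ≤ n * ((n : ℝ) ^ 3 * (n : ℝ) ^ K) := by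
        apply mul_le_mul_of_nonneg_left _ hn0.le
        exact mul_le_mul_of_nonneg_right h1.2 (by positivity)
    _ = (n : ℝ) ^ (K + 4) := by ring
    _ ≤ f n := h4

/-- For every `K`, both `a(n) / n^K` and `b(n) / n^K` tend to infinity. In particular (`K = 0`)
`a(n) → ∞` and `b(n) → ∞`: neither sequence converges to a finite limit, and neither has a finite
upper limit. -/
theorem result (K : ℕ) :
    Tendsto (fun n : ℕ => a n / (n : ℝ) ^ K) atTop atTop ∧
    Tendsto (fun n : ℕ => b n / (n : ℝ) ^ K) atTop atTop := by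
  refine ⟨tendsto_of C_ge ?_ K, tendsto_of D_ge ?_ K⟩
  · filter_upwards [eventually_ge_atTop 2] with n hn
    obtain ⟨h1, h2⟩ := log_le n hn
    have hn0 : (0 : ℝ) < n := by exact_mod_cast (by omega : 0 < n)
    refine ⟨by positivity, ?_⟩
    calc (n : ℝ) ^ 2 * Real.log n ≤ (n : ℝ) ^ 2 * n := mul_le_mul_of_nonneg_left h2 (by positivity)
      _ = (n : ℝ) ^ 3 := by ring
  · filter_upwards [eventually_ge_atTop 2] with n hn
    obtain ⟨h1, h2⟩ := log_le n hn
    have hn1 : (1 : ℝ) ≤ n := by exact_mod_cast (by omega : 1 ≤ n)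
    have hn0 : (0 : ℝ) < n := by linarith
    refine ⟨mul_pos (Real.rpow_pos_of_pos hn0 _) (Real.sqrt_pos.2 h1), ?_⟩
    have h3 : √(Real.log n) ≤ n := by
      rw [Real.sqrt_le_left (by linarith)]
      nlinarith
    have h4 : (n : ℝ) ^ (3 / 2 : ℝ) ≤ (n : ℝ) ^ (2 : ℝ) :=
      Real.rpow_le_rpow_of_exponent_le hn1 (by norm_num)
    rw [Real.rpow_two] at h4
    calc (n : ℝ) ^ (3 / 2 : ℝ) * √(Real.log n) ≤ (n : ℝ) ^ 2 * n :=
          mul_le_mul h4 h3 (Real.sqrt_nonneg _) (by positivity)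
      _ = (n : ℝ) ^ 3 := by ring

end Pool.Agent.Results.MP_dccd56_co.NormalizedDiverge
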